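import Pool.Agent.Lib.NetH.Final

/-!
# MP_f59b0a_lc: exponential strong converse for algorithmic solvability in hierarchical networks

If the Shannon problem is not achievable for a network with hierarchical sources, then the
probability that the `N`-sample strings have an algorithmic solution is exponentially small, even
with precision linear in `N`, uniformly in the decompressor.
-/

set_option autoImplicit false

namespace Pool.Agent.Results.MP_f59b0a_lc.HierarchicalSources

open Filter Topology Pool.Agent.Lib.NetAlg Pool.Agent.Lib.NetH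

theorem result (G : Net) (hac : G.Acyclic) (r : Fin G.k → Fin G.k → Prop)
    (hH : Hierarchical G r) (P : G.Sym → ℝ) (hP : ∀ σ, 0 ≤ P σ) (hP1 : ∑ σ, P σ = 1)
    (c : Fin G.nE → ℝ) (hc : ∀ e, 0 ≤ c e) (hna : ¬ G.Achievable P c) :
    (∃ η : ℝ, 0 < η ∧ ∃ N₀ : ℕ, ∀ N ≥ N₀,
      ∀ (U : List Bool → List (List Bool) → Option (List Bool))
        (enc : ∀ i : Fin G.k, (Fin N → Fin (G.sz i)) → List Bool),
        (∀ i, Function.Injective (enc i)) →
        pr P {x : G.Blk N | G.AlgSolvable U enc (fun e => (N : ℝ) * c e) (η * N) x} <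
          2 ^ (-(η * N))) ∧
    ∀ (U : List Bool → List (List Bool) → Option (List Bool))
      (enc : ∀ (N : ℕ) (i : Fin G.k), (Fin N → Fin (G.sz i)) → List Bool),
      (∀ N i, Function.Injective (enc N i)) → ∀ K : ℝ,
      Tendsto (fun N : ℕ => pr P {x : G.Blk N |
        G.AlgSolvable U (enc N) (fun e => (N : ℝ) * c e) (K * Real.log N) x}) atTop (𝓝 0) := by
  obtain ⟨η, hη, N₀, h⟩ := hierarchical G hac r hH P hP hP1 c hc hna
  exact ⟨⟨η, hη, N₀, h⟩, fun U enc henc K => tendsto_zero G P hP c hη h U enc henc K⟩

end Pool.Agent.Results.MP_f59b0a_lc.HierarchicalSources
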